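import Pool.Agent.Q219.NS.Turn
import Pool.Agent.W12.TQ.Iter
import Pool.Agent.W347.TQ.Ode
import Pool.Agent.W52.TQ.Univ
import Pool.Agent.W775.TQ.Dtp
import Pool.Agent.W503.TQ.Est1
import Pool.Agent.W790.TQ.Est2
import Pool.Agent.W52.TQ.Loc
import Pool.Agent.W503.TQ.Uni

/-!
# Before a first singular time the acceleration itself is amplified

Let `u` be a Leray-Hopf solution of the Navier-Stokes equations with admissible data in a bounded
open set `Ω` (no smoothness of the boundary), let `τ` be its first singular time and `a = ∂ₜu` the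
acceleration (at a fixed point), a field in `H¹_{0,σ}(Ω)` for almost every `t < τ`.

* The norm `‖a(t)‖` in `L²` is not at most `κ ν^{5/4} (τ - t)^{-3/4}` for almost all `t` near `τ`,
  `κ` an absolute constant.
* The instantaneous growth rate of the energy of the perturbation `a(t)` of `u(t)`, that is
  `(-∫ a·(a·∇)u - (1 - δ) ν ‖∇a‖²) / ‖a‖²`, must be large: the integral over `(s,t)` of every upper
  bound `Λ ≥ 0` for it is at least `(3/4) log (1/(τ - t)) - M` for some `t` arbitrarily close to `τ`.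

In the starting result `EnergyStability` the bound `Λ` is required for all perturbations in a
subspace of finite codimension; here it is required in the direction of the acceleration only.
-/

set_option autoImplicit false

open MeasureTheory Set
open scoped InnerProductSpace ENNReal ContDiff

namespace Pool.Agent.Results.MP_fd8964_an.AccelerationGrowth

open H772R2.NS.Pub Pool.Agent.W795.TQ
open Pool.Agent.W795.ES (stretch)

theorem result :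
    ∃ κ : ℝ, 0 < κ ∧
    ∀ (Ω : Set R3), IsOpen Ω → Bornology.IsBounded Ω → ∀ (ν T : ℝ), 0 < ν → 0 < T →
    ∀ (F F' : ℝ → L2 Ω Mat), IsH1 T F F' →
    ∀ (u : ℝ → L2 Ω R3) (G : ℝ → L2 Ω Mat), IsLerayHopf Ω ν T F u G →
    ∀ z0 : L2 Ω Mat, (u 0, z0) ∈ H1graph Ω →
    (∃ g : L2 Ω R3, ∀ φ, IsTest Ω φ → rhs ν (u 0) z0 (F 0) φ = ∫ x in Ω, ⟪g.fn x, φ x⟫_ℝ) →
    (∃ u' G1 G', IsStrong Ω ν T F u u' G1 G') ∨
    ∃ τ ∈ Ioc 0 T, (∀ t ∈ Ioo 0 τ, ∃ u' G1 G', IsStrong Ω ν t F u u' G1 G') ∧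
      ∃ a : ℝ → L2 Ω R3, ∃ D : ℝ → L2 Ω Mat,
      (∀ᵐ t ∂(volume.restrict (Ioo 0 τ)), HasDerivAt u (a t) t ∧ (a t, D t) ∈ H1graph Ω) ∧
      (∀ t0 < τ, ¬ ∀ᵐ t ∂(volume.restrict (Ioo t0 τ)),
        ‖a t‖ ≤ κ * ν ^ (5 / 4 : ℝ) * (τ - t) ^ (-(3 / 4) : ℝ)) ∧
      ∀ δ : ℝ, 0 < δ → ∀ s ∈ Ico 0 τ, ∃ M : ℝ, ∀ Λ : ℝ → ℝ, (∀ t, 0 ≤ Λ t) →
        (∀ t ∈ Ioo s τ, IntegrableOn Λ (Ioc s t)) →
        (∀ᵐ t ∂(volume.restrict (Ioo s τ)),
          -stretch (G t) (a t) ≤ (1 - δ) * ν * ‖D t‖ ^ 2 + Λ t * ‖a t‖ ^ 2) →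
        ∀ t0 < τ, ∃ t ∈ Ioo t0 τ, s < t ∧
          3 / 4 * Real.log (1 / (τ - t)) - M ≤ ∫ r in s..t, Λ r := by
  obtain ⟨κ, hκ, main⟩ := Pool.Agent.Q219.NS.turn_mid Pool.Agent.W12.TQ.proof
    Pool.Agent.W347.TQ.proof_ode Pool.Agent.W775.TQ.proof_dtp Pool.Agent.W503.TQ.proof_est1
    Pool.Agent.W790.TQ.proof_est2 Pool.Agent.W52.TQ.proof_loc Pool.Agent.W503.TQ.proof_uni
    Pool.Agent.W52.TQ.proof_univ
  refine ⟨κ, hκ, ?_⟩
  intro Ω hΩ hb ν T hν hT F F' hF u G L z0 h0 hg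
  obtain ⟨g, hg'⟩ := hg
  rcases main Ω hΩ hb ν T hν hT F F' ⟨hF.memLp, hF.prim⟩ u G L.meas
    (by
      filter_upwards [L.grad] with t ht
      exact mem_pub.mpr ht) L.gradL2
    (fun φ hφ t ht => L.eqn φ ((isTest_iff φ).mpr hφ) t ht) L.energy z0 (mem_pub.mpr h0)
    ⟨g, fun φ hφ => hg' φ ((isTest_iff φ).mpr hφ)⟩ with h | ⟨τ, hτ, hst, D, h1, h2, h3, -, -, -⟩
  · exact Or.inl h
  refine Or.inr ⟨τ, hτ, hst, _, D, ?_, h2, h3⟩
  filter_upwards [h1] with t ht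
  exact ⟨ht.1, mem_pub.mp ht.2⟩

end Pool.Agent.Results.MP_fd8964_an.AccelerationGrowth
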