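import Pool.Agent.Q219.NS.Rot
import Pool.Agent.W52.TQ.Loc
import Pool.Agent.W503.TQ.Uni

/-!
# Global strong solutions for large data with a rotational symmetry of high order

`Ω ⊆ ℝ³` is a bounded open set (no smoothness of the boundary) at positive distance `ρ` from the
third coordinate axis and contained in the cylinder of radius `R` about it. If `Ω`, the initial
velocity and the force are invariant under the rotation by `2π/n` about the axis and `n` is larger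
than an explicit function of the size of the data, then there is a (unique) strong solution on the
whole time interval. The data need not be small, nor close to axisymmetric or two-dimensional data.
The order `n` may depend on the final time. In particular, there is no condition of size if the data
are invariant under all rotations (axisymmetric flows with swirl in arbitrary axisymmetric open sets
away from the axis).

The proof uses an inequality of Ladyzhenskaya type for the time derivative: for fields which are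
invariant under the rotation by `2π/n` the constant of the three dimensional part is `O(1/n)`.
-/

set_option autoImplicit false

open MeasureTheory Set
open scoped InnerProductSpace ENNReal ContDiff

namespace Pool.Agent.Results.MP_fd8964_an.RotationalSymmetry

open H772R2.NS.Pub Pool.Agent.W795.TQ
open Pool.Agent.Y303.NF (rot axisSq IsInvariant IsInvariantForce)

/-- On `[0,T]` the data (`u₀` the initial velocity, `g` the initial acceleration, `F` the force, `F'`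
its time derivative) are invariant under the rotation by `2π/n` about the third axis, and `n` is
large in terms of the bounds `E`, `Φ`, `B` of the data. -/
def HighSymmetry (Ω : Set R3) (ν ρ R : ℝ) (F F' : ℝ → L2 Ω Mat) (u0 g : L2 Ω R3) (T : ℝ) (n : ℕ)
    (E Φ B : ℝ) : Prop :=
  0 < n ∧ (∀ x ∈ Ω, rot (2 * Real.pi / n) x ∈ Ω) ∧
  IsInvariant (2 * Real.pi / n) u0 ∧
  (∀ t ∈ Icc 0 T, IsInvariantForce (2 * Real.pi / n) (F t)) ∧
  0 ≤ E ∧ 0 < B ∧
  ‖u0‖ ^ 2 + (∫ s in (0 : ℝ)..T, ‖F s‖ ^ 2) / ν ≤ E ^ 2 ∧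
  (∀ t ∈ Icc 0 T, ‖F t‖ ≤ Φ) ∧
  17 * ‖g‖ ^ 2 + (∫ s in (0 : ℝ)..T, ‖F' s‖ ^ 2) / ν ≤ B ^ 2 ∧
  432 * R ^ 2 * E ^ 2 * (Φ ^ 2 + 2 * ν * E * (B * Real.exp (E ^ 2 / (Real.pi * ρ * ν ^ 2)
      + 1 / 2))) ≤ n ^ 2 * ρ ^ 2 * ν ^ 6

/-- There is `u` with `u(0) = u₀` which for every `T ∈ I` is a strong solution on `[0,T]`, and every
Leray-Hopf solution on `[0,T]` with this initial velocity is equal to `u`. -/
def SolvedOn (Ω : Set R3) (ν : ℝ) (F : ℝ → L2 Ω Mat) (u0 : L2 Ω R3) (I : Set ℝ) : Prop :=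
  ∃ (u u' : ℝ → L2 Ω R3) (G G' : ℝ → L2 Ω Mat), u 0 = u0 ∧
    ∀ T ∈ I, IsStrong Ω ν T F u u' G G' ∧
      ∀ (w : ℝ → L2 Ω R3) (D : ℝ → L2 Ω Mat), IsLerayHopf Ω ν T F w D → w 0 = u0 →
        ∀ t ∈ Icc 0 T, w t = u t

theorem result :
    ∀ (Ω : Set R3), IsOpen Ω → Bornology.IsBounded Ω → ∀ ρ R : ℝ, 0 < ρ → 0 < R →
    (∀ x ∈ Ω, ρ ^ 2 ≤ axisSq x ∧ axisSq x ≤ R ^ 2) → ∀ ν : ℝ, 0 < ν →
    ∀ (I : Set ℝ), (∀ T ∈ I, 0 < T) →
    ∀ (F F' : ℝ → L2 Ω Mat), (∀ T ∈ I, IsH1 T F F') →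
    ∀ (u0 g : L2 Ω R3) (z0 : L2 Ω Mat), (u0, z0) ∈ H1graph Ω →
    (∀ φ, IsTest Ω φ → rhs ν u0 z0 (F 0) φ = ∫ x in Ω, ⟪g.fn x, φ x⟫_ℝ) →
    ((∀ T ∈ I, ∃ (n : ℕ) (E Φ B : ℝ), HighSymmetry Ω ν ρ R F F' u0 g T n E Φ B) →
      SolvedOn Ω ν F u0 I) ∧
    ((∀ (α : ℝ), (∀ x ∈ Ω, rot α x ∈ Ω) ∧ IsInvariant α u0 ∧
        ∀ T ∈ I, ∀ t ∈ Icc 0 T, IsInvariantForce α (F t)) →
      SolvedOn Ω ν F u0 I) := by
  intro Ω hΩ hb ρ R hρ hR hsub ν hν I hI F F' hF u0 g z0 h0 hg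
  have main : (∀ T ∈ I, ∃ (n : ℕ) (E Φ B : ℝ), HighSymmetry Ω ν ρ R F F' u0 g T n E Φ B) →
      SolvedOn Ω ν F u0 I := by
    intro h
    obtain ⟨u, u', G, G', h1, h2⟩ := Pool.Agent.Q219.NS.rot_main
      Pool.Agent.W52.TQ.proof_loc Pool.Agent.W503.TQ.proof_uni hΩ hb hρ hR hsub hν hI
      (F := F) (F1 := F') (fun T hT => ⟨(hF T hT).memLp, (hF T hT).prim⟩)
      (u0 := u0) (g0 := g) (z0 := z0) (mem_pub.mpr h0)
      (fun φ hφ => hg φ ((isTest_iff φ).mpr hφ)) h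
    refine ⟨u, u', G, G', h1, fun T hT => ⟨(h2 T hT).1, ?_⟩⟩
    intro w D L hw
    exact (h2 T hT).2 w D L.meas (by
      filter_upwards [L.grad] with t ht
      exact mem_pub.mpr ht) L.gradL2
      (fun φ hφ => L.eqn φ ((isTest_iff φ).mpr hφ)) L.energy hw
  refine ⟨main, fun hax => main fun T hT => ?_⟩
  have c1 : CompleteSpace Mat := inferInstanceAs (CompleteSpace (EuclideanSpace ℝ (Fin 3 × Fin 3)))
  have c2 : CompleteSpace (L2 Ω Mat) :=
    inferInstanceAs (CompleteSpace (Lp Mat 2 ((volume : Measure R3).restrict Ω)))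
  have hFc : ContinuousOn F (Icc 0 T) := H772R2.NSR.prim_cont (hF T hT).memLp (hF T hT).prim
  obtain ⟨Φ, hΦ⟩ := (isCompact_Icc.image_of_continuousOn hFc.norm).bddAbove
  have hΦ' : ∀ t ∈ Icc 0 T, ‖F t‖ ≤ Φ := fun t ht => hΦ ⟨t, ht, rfl⟩
  have hT0 := hI T hT
  set E2 : ℝ := ‖u0‖ ^ 2 + (∫ s in (0 : ℝ)..T, ‖F s‖ ^ 2) / ν with hE2
  set B2 : ℝ := 17 * ‖g‖ ^ 2 + (∫ s in (0 : ℝ)..T, ‖F' s‖ ^ 2) / ν with hB2
  have hE20 : 0 ≤ E2 := by
    have : 0 ≤ ∫ s in (0 : ℝ)..T, ‖F s‖ ^ 2 :=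
      intervalIntegral.integral_nonneg hT0.le fun s _ => by positivity
    positivity
  have hB20 : 0 ≤ B2 := by
    have : 0 ≤ ∫ s in (0 : ℝ)..T, ‖F' s‖ ^ 2 :=
      intervalIntegral.integral_nonneg hT0.le fun s _ => by positivity
    positivity
  set K : ℝ := 432 * R ^ 2 * (√E2) ^ 2 * (Φ ^ 2 + 2 * ν * √E2 * ((√B2 + 1) *
    Real.exp ((√E2) ^ 2 / (Real.pi * ρ * ν ^ 2) + 1 / 2))) with hK
  obtain ⟨n, hn⟩ := exists_nat_ge (K / (ρ ^ 2 * ν ^ 6) + 1)
  have hc : 0 < ρ ^ 2 * ν ^ 6 := by positivity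
  have hK0 : 0 ≤ K := by positivity
  have hn1 : (1 : ℝ) ≤ n := by
    have : 0 ≤ K / (ρ ^ 2 * ν ^ 6) := by positivity
    linarith
  refine ⟨n, √E2, Φ, √B2 + 1, by exact_mod_cast hn1, (hax _).1, (hax _).2.1,
    (hax _).2.2 T hT, Real.sqrt_nonneg _, by positivity, ?_, hΦ', ?_, ?_⟩
  · rw [Real.sq_sqrt hE20]
  · have h1 := Real.sq_sqrt hB20
    have h2 := Real.sqrt_nonneg B2
    nlinarith
  · have h1 : K / (ρ ^ 2 * ν ^ 6) ≤ (n : ℝ) ^ 2 := by nlinarith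
    rw [div_le_iff₀ hc] at h1
    calc K ≤ (n : ℝ) ^ 2 * (ρ ^ 2 * ν ^ 6) := h1
      _ = _ := by ring

end Pool.Agent.Results.MP_fd8964_an.RotationalSymmetry
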