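import Pool.Agent.Q176.SH.Main

/-!
# A criterion by Hardy wells for the strain or the velocity

Before a first singular time `τ` of a Leray-Hopf solution in a bounded domain neither the negative
part of the strain nor the velocity (up to a rigid motion) can be dominated by inverse square wells
whose strength is below the optimal constant of the Hardy-Leray inequality for divergence free
fields (`25/68` in the isotropic case), plus a function `β(t)` of time with
`∫ β < (3/4) log (1/(τ - t)) - C`. The centres of the wells, their number, size and shape may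
change arbitrarily with time.

The proof uses the lower bound `(3/4) log (1/(τ - t)) - C` for the integral of the maximal growth
rate of the energy of perturbations (starting result `EnergyStability` of this problem), and the
following inequality, proved in `Pool.Agent.Q176.SH.Multi` (`hardy`): for `q ∈ [0,2]`, divergence
free test fields `v`, and finite sets `P` of points at distances at least `2R`,
`∫ ∑_{a ∈ P, |x-a| < R} ((17/36 - q)|v_t|² + (1/4 + 9q/8)|v_r|²)/|x-a|² ≤ ∫ |∇v|² + (12/R²) ∫ |v|²`,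
where `v_r`, `v_t` are the radial and the tangential parts with respect to `a`.
-/

set_option autoImplicit false

open MeasureTheory Set
open scoped InnerProductSpace ENNReal ContDiff

namespace Pool.Agent.Results.MP_fd8964_an.StrainWells

open H772R2.NS.Pub Pool.Agent.W795.TQ
open Pool.Agent.Q176.SH (StrainBound VelocityBound)

/-- Let `u` be a Leray-Hopf solution on `[0,T]` with admissible data in a bounded open set `Ω`.
Then either `u` is a strong solution on `[0,T]`, or there is a first singular time `τ ∈ (0,T]` such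
that for every `κ ∈ [0,1)`:

(1) For `0 ≤ s < τ` there is a number `M` such that, whenever `β ≥ 0` is locally integrable on
`[s,τ)` and for almost every `t ∈ (s,τ)` the strain or the velocity at time `t` satisfies the bound
by Hardy wells with the constants `κ`, `ν`, `β(t)`, one has
`∫_s^t β ≥ (3/4) log (1/(τ - t)) - M` for `t < τ` arbitrarily close to `τ`.

(2) If `γ < 3/4` then the bound with `β(t) = γ/(τ - t)` does not hold for almost every `t` in a left
neighbourhood of `τ`. -/
theorem result :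
    ∀ (Ω : Set R3), IsOpen Ω → Bornology.IsBounded Ω → ∀ (ν T : ℝ), 0 < ν → 0 < T →
    ∀ (F F' : ℝ → L2 Ω Mat), IsH1 T F F' →
    ∀ (u : ℝ → L2 Ω R3) (G : ℝ → L2 Ω Mat), IsLerayHopf Ω ν T F u G →
    ∀ z0 : L2 Ω Mat, (u 0, z0) ∈ H1graph Ω →
    (∃ g : L2 Ω R3, ∀ φ, IsTest Ω φ → rhs ν (u 0) z0 (F 0) φ = ∫ x in Ω, ⟪g.fn x, φ x⟫_ℝ) →
    (∃ u' G1 G', IsStrong Ω ν T F u u' G1 G') ∨
    ∃ τ ∈ Ioc 0 T, (∀ t ∈ Ioo 0 τ, ∃ u' G1 G', IsStrong Ω ν t F u u' G1 G') ∧
      ∀ κ : ℝ, 0 ≤ κ → κ < 1 →
      (∀ s ∈ Ico 0 τ, ∃ M : ℝ, ∀ β : ℝ → ℝ,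
        (∀ t, 0 ≤ β t) → (∀ t ∈ Ioo s τ, IntervalIntegrable β volume s t) →
        (∀ᵐ t ∂(volume.restrict (Ioo s τ)),
          StrainBound κ ν (β t) (G t) ∨ VelocityBound κ ν (β t) (u t)) →
        ∀ t0 < τ, ∃ t ∈ Ioo t0 τ, s < t ∧
          3 / 4 * Real.log (1 / (τ - t)) - M ≤ ∫ r in s..t, β r) ∧
      (∀ γ t1 : ℝ, 0 ≤ γ → γ < 3 / 4 → t1 < τ →
        ¬ ∀ᵐ t ∂(volume.restrict (Ioo t1 τ)),
          StrainBound κ ν (γ / (τ - t)) (G t) ∨ VelocityBound κ ν (γ / (τ - t)) (u t)) := by
  intro Ω hΩ hb ν T hν hT F F' hF u G L z0 h0 hg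
  rcases Pool.Agent.Q176.SH.main Ω hΩ hb ν T hν hT F F' hF u G L z0 h0 hg with h | ⟨τ, hτ, h1, h2⟩
  · exact Or.inl h
  · refine Or.inr ⟨τ, hτ, h1, fun κ hκ hκ1 => ⟨h2 κ hκ hκ1, ?_⟩⟩
    intro γ t1 hγ hγ1 ht1 hyp
    exact Pool.Agent.Q176.SH.explicit hτ.1 (h2 κ hκ hκ1) hγ hγ1 ht1 hyp

end Pool.Agent.Results.MP_fd8964_an.StrainWells
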