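import Pool.Agent.Q219.NS.Turn
import Pool.Agent.W12.TQ.Iter
import Pool.Agent.W347.TQ.Ode
import Pool.Agent.W52.TQ.Univ
import Pool.Agent.W775.TQ.Dtp
import Pool.Agent.W503.TQ.Est1
import Pool.Agent.W790.TQ.Est2
import Pool.Agent.W52.TQ.Loc
import Pool.Agent.W503.TQ.Uni

/-!
# Before a first singular time the velocity must turn

Let `u` be a Leray-Hopf solution of the Navier-Stokes equations with admissible data in a bounded
open set `Ω` (no smoothness of the boundary), and let `τ` be its first singular time. Regularity is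
decided by the vector product `u × ∂ₜu` alone, in other words by the change in time of the direction
of the velocity at the points of space, or by the component of the velocity orthogonal to `∂ₜu`:

* `∫_s^t ‖u × ∂ₜu‖² ≥ κ ν^{7/2} (τ - t)^{-3/2}` for some `t` arbitrarily close to `τ` (norm in `L²`),
  `κ` an absolute constant;
* (classes of Serrin, `2/p + 3/q = 1`, `3 < q ≤ ∞`) if `|u × ∂ₜu| ≤ |w| |∂ₜu|` and
  `‖w(t)‖_q ≤ B(t)`, then `K ∫_s^t B^p ≥ (3/4) log (1/(τ - t)) - M` for some `t` arbitrarily close to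
  `τ`, with a constant `K` which depends on `q` and `ν` only;
* (explicit constant) for `b < 3` it is not true that `|u × ∂ₜu| ≤ √(b ν / (τ - t)) |∂ₜu|` for almost
  all `x` and almost all `t` near `τ`.

No component of the velocity parallel to `∂ₜu` has to be controlled.

The proof uses the identity `|∫ a·(a·∇)u| ≤ ‖∇a‖ ‖u × a‖`, `a = ∂ₜu`, valid for divergence free
fields, in the energy equality for `a`.
-/

set_option autoImplicit false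

open MeasureTheory Set
open scoped InnerProductSpace ENNReal ContDiff

namespace Pool.Agent.Results.MP_fd8964_an.VelocityTurning

open H772R2.NS.Pub Pool.Agent.W795.TQ

/-- `|v(x) × w(x)|² = |v|²|w|² - (v·w)²` -/
noncomputable def crossSq {Ω : Set R3} (v w : L2 Ω R3) (x : R3) : ℝ :=
  ‖v.fn x‖ ^ 2 * ‖w.fn x‖ ^ 2 - ⟪v.fn x, w.fn x⟫_ℝ ^ 2

theorem result :
    ∃ κ S : ℝ, 0 < κ ∧ 0 ≤ S ∧
    ∀ (Ω : Set R3), IsOpen Ω → Bornology.IsBounded Ω → ∀ (ν T : ℝ), 0 < ν → 0 < T →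
    ∀ (F F' : ℝ → L2 Ω Mat), IsH1 T F F' →
    ∀ (u : ℝ → L2 Ω R3) (G : ℝ → L2 Ω Mat), IsLerayHopf Ω ν T F u G →
    ∀ z0 : L2 Ω Mat, (u 0, z0) ∈ H1graph Ω →
    (∃ g : L2 Ω R3, ∀ φ, IsTest Ω φ → rhs ν (u 0) z0 (F 0) φ = ∫ x in Ω, ⟪g.fn x, φ x⟫_ℝ) →
    (∃ u' G1 G', IsStrong Ω ν T F u u' G1 G') ∨
    ∃ τ ∈ Ioc 0 T, (∀ t ∈ Ioo 0 τ, ∃ u' G1 G', IsStrong Ω ν t F u u' G1 G') ∧
      ∃ a : ℝ → L2 Ω R3, (∀ᵐ t ∂(volume.restrict (Ioo 0 τ)), HasDerivAt u (a t) t) ∧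
      (∀ s ∈ Ico 0 τ, ∀ t0 < τ, ∃ t ∈ Ioo t0 τ, s < t ∧
        κ * ν ^ (7 / 2 : ℝ) * (τ - t) ^ (-(3 / 2) : ℝ)
          ≤ ∫ r in s..t, ∫ x in Ω, crossSq (u r) (a r) x) ∧
      (∀ q : ℝ≥0∞, 3 < q → ∀ θ : ℝ, θ = (3 / q).toReal → ∀ s ∈ Ico 0 τ, ∃ M : ℝ,
        ∀ (w : ℝ → R3 → ℝ) (B : ℝ → ℝ), (∀ t, 0 ≤ B t) →
        (∀ t ∈ Ioo s τ, IntegrableOn (fun r => B r ^ (2 / (1 - θ))) (Ioc s t)) →
        (∀ᵐ t ∂(volume.restrict (Ioo s τ)),
          AEStronglyMeasurable (w t) (volume.restrict Ω) ∧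
          eLpNorm (w t) q (volume.restrict Ω) ≤ ENNReal.ofReal (B t) ∧
          ∀ᵐ x ∂(volume.restrict Ω), crossSq (u t) (a t) x ≤ (w t x) ^ 2 * ‖(a t).fn x‖ ^ 2) →
        ∀ t0 < τ, ∃ t ∈ Ioo t0 τ, s < t ∧
          3 / 4 * Real.log (1 / (τ - t)) - M ≤
            (1 - θ) / 2 * S ^ (2 * θ / (1 - θ)) * (1 + θ) ^ ((1 + θ) / (1 - θ))
              * ν ^ (-((1 + θ) / (1 - θ))) * ∫ r in s..t, B r ^ (2 / (1 - θ))) ∧
      ∀ b : ℝ, b < 3 → ∀ t0 < τ, ¬ ∀ᵐ t ∂(volume.restrict (Ioo t0 τ)),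
        ∀ᵐ x ∂(volume.restrict Ω),
          crossSq (u t) (a t) x ≤ b * ν / (τ - t) * ‖(a t).fn x‖ ^ 2 := by
  obtain ⟨κ, hκ, main⟩ := Pool.Agent.Q219.NS.turn_mid Pool.Agent.W12.TQ.proof
    Pool.Agent.W347.TQ.proof_ode Pool.Agent.W775.TQ.proof_dtp Pool.Agent.W503.TQ.proof_est1
    Pool.Agent.W790.TQ.proof_est2 Pool.Agent.W52.TQ.proof_loc Pool.Agent.W503.TQ.proof_uni
    Pool.Agent.W52.TQ.proof_univ
  refine ⟨κ ^ 2 / 2, (H772R2.NS.CS : ℝ), by positivity, NNReal.coe_nonneg _, ?_⟩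
  intro Ω hΩ hb ν T hν hT F F' hF u G L z0 h0 hg
  obtain ⟨g, hg'⟩ := hg
  rcases main Ω hΩ hb ν T hν hT F F' ⟨hF.memLp, hF.prim⟩ u G L.meas
    (by
      filter_upwards [L.grad] with t ht
      exact mem_pub.mpr ht) L.gradL2
    (fun φ hφ t ht => L.eqn φ ((isTest_iff φ).mpr hφ) t ht) L.energy z0 (mem_pub.mpr h0)
    ⟨g, fun φ hφ => hg' φ ((isTest_iff φ).mpr hφ)⟩ with h | ⟨τ, hτ, hst, D, h1, -, -, h4, h5, h6⟩
  · exact Or.inl h
  refine Or.inr ⟨τ, hτ, hst, _, ?_, h4, h5, h6⟩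
  filter_upwards [h1] with t ht
  exact ht.1

end Pool.Agent.Results.MP_fd8964_an.VelocityTurning
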